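import Pool.Agent.TH116.PT.NeverOne

/-!
# Dade's invariant conjecture: small alternating sums different from `1` and `-1` are zero
-/

universe u

namespace Pool.Agent.Results.MP_baa4d7_al.SmallAndNeverOne

open Polynomial Pool.Agent.TH116.PT

/-- The data `(G, E, B, U)` of the problem for a fixed prime: `G` with `O_p(G) = 1`, an extension `E`,
a block `B` of `G` with nontrivial defect group and a subgroup `U` of `E / G`. -/
structure Blocks where
  /-- the data -/
  Datum : Type u
  /-- the order of `G` -/
  order : Datum → ℕ
  one_le_order : ∀ x, 1 ≤ order x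
  /-- the polynomial whose coefficient of `X ^ d` is the alternating sum of the problem for `d` -/
  sums : Datum → ℤ[X]
  /-- the datum `(G × G', E × E', B ⊗ B', U × U')` -/
  prod : Datum → Datum → Datum
  order_prod : ∀ x y, order (prod x y) = order x * order y
  sums_prod : ∀ x y, sums (prod x y) = sums x * sums y

/-- All alternating sums are zero if and only if none of them is `1` or `-1` and, for each `ε > 0`,
they are at most `C |G| ^ ε` in absolute value. -/
theorem result (T : Blocks.{u}) :
    (∀ x d, (T.sums x).coeff d = 0) ↔
      (∀ x d, (T.sums x).coeff d ≠ 1 ∧ (T.sums x).coeff d ≠ -1) ∧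
      ∀ ε : ℝ, 0 < ε → ∃ C : ℝ, ∀ x d, |((T.sums x).coeff d : ℝ)| ≤ C * (T.order x : ℝ) ^ ε :=
  coeff_eq_zero_iff T.prod T.one_le_order T.sums_prod T.order_prod

end Pool.Agent.Results.MP_baa4d7_al.SmallAndNeverOne
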